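import Mathlib
import Pool.Agent.Lib.StarN.Good

set_option autoImplicit false
set_option linter.unusedSectionVars false

/-!
# The constraints along a line, with slack

`T` has degree at most `(q-1-r)(t+N) + t - 1` and order `N(q-1-r)` at the points. `Zn q P T n` says
that the trace coefficient of `T * H` at `P` vanishes for all `H` of order at least `n`.
-/

namespace Pool.Agent.Lib.StarQ

open MvPolynomial Pool.Agent.Lib.Chud Pool.Agent.Lib.P5c592f Pool.Agent.Lib.StarN

section

variable {σ : Type*} [Fintype σ] [DecidableEq σ] {k : Type*} [Field k]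

/-- `th (T * H)` vanishes for all `H` of order at least `n` -/
def Zn (q : ℕ) (P : σ → k) (T : MvPolynomial σ k) (n : ℕ) : Prop :=
  ∀ H, OrdGE P n H → th q P (T * H) = 0

theorem Zn.mono {q n n' : ℕ} {P : σ → k} {T : MvPolynomial σ k} (h : Zn q P T n) (hn : n ≤ n') :
    Zn q P T n' := fun H hH => h H (OrdGE.mono hH hn)

theorem Zn.mul {q n : ℕ} {P : σ → k} {T : MvPolynomial σ k} (h : Zn q P T (n + 1))
    {H : MvPolynomial σ k} (hH : OrdGE P n H) (g : MvPolynomial σ k) :
    th q P (T * (g * H)) = eval P g * th q P (T * H) := by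
  have h1 : T * (g * H) = C (eval P g) * (T * H) + T * ((g - C (eval P g)) * H) := by ring
  have h2 : OrdGE P (n + 1) ((g - C (eval P g)) * H) := by
    have h3 := (ordGE_sub_eval (P := P) (w := g)).mul hH
    rwa [add_comm] at h3
  rw [h1, th_add, h _ h2, add_zero, th, map_mul, tau_C, coeff_C_mul]
  rfl

end

section

variable {σ : Type*} [Fintype σ] [DecidableEq σ] {k : Type*} [Field k] {p : ℕ} [Fact p.Prime]
  [CharP k p] {ι : Type*} [Fintype ι] [DecidableEq ι] {t : ℕ} {S : ι → σ → k}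
  {E : ι → MvPolynomial σ k}

/-- `T` has degree at most `(q-1-r)(t+N) + t - 1` and order `N (q - 1 - r)` at the points -/
structure TQ (S : ι → σ → k) (t q r : ℕ) (T : MvPolynomial σ k) : Prop where
  rq : r ≤ q - 1
  big : Fintype.card ι * (Fintype.card σ * r + 1) ≤ q
  deg : T.totalDegree + 1 ≤ (q - 1 - r) * (t + Fintype.card σ) + t
  ord : ∀ i, OrdGE (S i) (Fintype.card σ * (q - 1 - r)) T

theorem TQ.sum {q r : ℕ} {T : MvPolynomial σ k} (hT : TQ S t q r T) :
    Fintype.card σ * (q - 1 - r) + Fintype.card σ * r = Fintype.card σ * (q - 1) := by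
  rw [← mul_add]
  congr 1
  have := hT.rq
  omega

theorem TQ.zn {q r : ℕ} {T : MvPolynomial σ k} (hT : TQ S t q r T) (i : ι) :
    Zn q (S i) T (Fintype.card σ * r + 1) := by
  intro H hH
  apply th_zero_of_ord ((hT.ord i).mul hH)
  have := hT.sum
  omega

theorem line_constrQ (U : Uni t S E) {e r : ℕ} {T : MvPolynomial σ k}
    (hT : TQ S t (p ^ e) r T) {ν : ι → ℕ} (hν : ∀ i, Zn (p ^ e) (S i) T (ν i))
    (hνr : ∀ i, ν i ≤ Fintype.card σ * r + 1)
    {i0 j0 : ι} (hij : i0 ≠ j0) (hadj : Adj S E j0 i0) {Y w : MvPolynomial σ k} {dY s : ℕ}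
    (hY : Y.totalDegree ≤ dY) (hYo : ∀ i ∈ ln S i0 j0, OrdGE (S i) dY Y)
    (hw : w.totalDegree ≤ 1)
    (hwi : ∀ i ∈ ln S i0 j0, ∀ j ∈ ln S i0 j0, i ≠ j → eval (S i) w ≠ eval (S j) w)
    (hds : dY + s + 1 = ν j0)
    (R : Finset ι) (hR : ∀ j, j ∈ R ↔ j ∈ ln S i0 j0 ∧ j ≠ i0 ∧ j ≠ j0)
    (ex : ι → ℕ) (hex : ∀ j ∈ R, ν j ≤ dY + ex j)
    (hcount : s + 1 + ∑ j ∈ R, ex j ≤ r * t) :
    th (p ^ e) (S j0) (T * (Y * (w - C (eval (S j0) w)) ^ s)) = 0 := by
  classical
  have hi0 : i0 ∈ ln S i0 j0 := ln_left S i0 j0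
  have hj0 : j0 ∈ ln S i0 j0 := ln_right S i0 j0
  set N := Fintype.card σ with hN
  set q := p ^ e with hq
  have hq0 : 0 < q := pow_pos (Fact.out (p := p.Prime)).pos _
  have hdY : dY ≤ N * r := by have := hνr j0; omega
  obtain ⟨A, hAd, hAo, hAoff, hAon⟩ := exists_cone (S := S) U.injective hij
    (m := N * r + 1) (M := q + 1 + (N * r - dY)) (le_trans hT.big (by omega))
  set W : ι → MvPolynomial σ k := fun i => w - C (eval (S i) w) with hW
  have hWd : ∀ i, (W i).totalDegree ≤ 1 := fun i => by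
    refine (totalDegree_sub _ _).trans ?_
    rw [totalDegree_C]
    omega
  have hWo : ∀ i, OrdGE (S i) 1 (W i) := fun i => ordGE_sub_eval
  have hWn : ∀ i ∈ ln S i0 j0, ∀ j ∈ ln S i0 j0, i ≠ j → eval (S i) (W j) ≠ 0 := by
    intro i hi j hj hne
    rw [hW]
    simp only [map_sub, eval_C]
    rw [sub_ne_zero]
    exact hwi i hi j hj hne
  have hWe : ∀ i n, (W i ^ n).totalDegree ≤ n := by
    intro i n
    refine (totalDegree_pow _ _).trans ?_
    have := Nat.mul_le_mul_left n (hWd i)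
    simpa using this
  set D : MvPolynomial σ k := ∏ i ∈ R, W i ^ ex i with hD
  have hDd : D.totalDegree ≤ ∑ i ∈ R, ex i :=
    totalDegree_finset_prod_le R _ _ (fun i _ => hWe i _)
  set f : MvPolynomial σ k := T * (A * (Y * (W j0 ^ s * D))) with hf
  have hfd : f.totalDegree < N * (q - 1) + q * (t + 1) := by
    have h1 : f.totalDegree ≤ T.totalDegree +
        ((q + 1 + (N * r - dY)) + (dY + (s + ∑ i ∈ R, ex i))) := by
      refine (totalDegree_mul _ _).trans (add_le_add le_rfl ?_)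
      refine (totalDegree_mul _ _).trans (add_le_add hAd ?_)
      refine (totalDegree_mul _ _).trans (add_le_add hY ?_)
      exact (totalDegree_mul _ _).trans (add_le_add (hWe _ _) hDd)
    refine lt_of_le_of_lt h1 ?_
    have hTd := hT.deg
    obtain ⟨u, hu⟩ : ∃ u, q - 1 = u + r := ⟨q - 1 - r, by have := hT.rq; omega⟩
    have hq1 : q = u + r + 1 := by omega
    have e1 : q - 1 - r = u := by omega
    rw [e1, ← hN] at hTd
    rw [hu]
    have e2 : q * (t + 1) = u * t + r * t + t + q := by rw [hq1]; ring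
    have e3 : u * (t + N) = u * t + N * u := by ring
    have e4 : N * (u + r) = N * u + N * r := by ring
    rw [e3] at hTd
    rw [e2, e4]
    omega
  have hsum : N * (q - 1 - r) + N * r = N * (q - 1) := hT.sum
  -- order at i0
  have hord0 : OrdGE (S i0) (N * (q - 1) + q + 1) f := by
    have h1 := (hT.ord i0).mul (hAo.mul ((hYo i0 hi0).mul
      (OrdGE.zero (P := S i0) (f := W j0 ^ s * D))))
    apply OrdGE.mono h1
    rw [← hN]
    omega
  -- vanishing of th outside j0
  have hz : ∀ i, i ≠ j0 → th q (S i) f = 0 := by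
    intro i hi
    by_cases hi1 : i = i0
    · subst hi1
      exact th_zero_of_ord hord0 (by rw [← hN]; omega)
    by_cases hiL : i ∈ ln S i0 j0
    · have hiR : i ∈ R := (hR i).2 ⟨hiL, hi1, hi⟩
      have hDo : OrdGE (S i) (ex i) D := by
        rw [hD, ← Finset.mul_prod_erase R _ hiR, mul_comm]
        apply OrdGE.C_mul
        have := (hWo i).pow (ex i)
        rwa [mul_one] at this
      apply hν i
      apply OrdGE.C_mul
      exact OrdGE.mono ((hYo i hiL).mul (hDo.C_mul (W j0 ^ s))) (hex i hiR)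
    · have h2 : OrdGE (S i) (N * r + 1) (A * (Y * (W j0 ^ s * D))) := by
        rw [mul_comm A]
        exact (hAoff i hiL).C_mul _
      exact (hT.zn i) _ h2
  obtain ⟨l', hl'⟩ := hadj
  have h1 := constr U e hfd (S i0) hord0 l'
  rw [Finset.sum_eq_single j0 (fun i _ hi => by rw [← hq, hz i hi, zero_mul])
    (fun h => absurd (Finset.mem_univ j0) h)] at h1
  have h2 : OrdGE (S j0) (dY + s) (Y * W j0 ^ s) := by
    have h3 := (hYo j0 hj0).mul ((hWo j0).pow s)
    rwa [mul_one] at h3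
  have h3 : Zn q (S j0) T (dY + s + 1) := by rw [hds]; exact hν j0
  have e1 : f = T * ((A * D) * (Y * W j0 ^ s)) := by rw [hf]; ring
  rw [← hq, e1, h3.mul h2] at h1
  have h4 : eval (S j0) (A * D) ≠ 0 := by
    rw [map_mul, hD, map_prod]
    refine mul_ne_zero (hAon j0 hj0 (Ne.symm hij)) ?_
    rw [Finset.prod_ne_zero_iff]
    intro i hi
    obtain ⟨hiL, _, hne⟩ := (hR i).1 hi
    rw [map_pow]
    exact pow_ne_zero _ (hWn j0 hj0 i hiL (Ne.symm hne))
  rcases mul_eq_zero.1 h1 with h5 | h5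
  · exact (mul_eq_zero.1 h5).resolve_left h4
  · exact absurd (pow_eq_zero_iff (pow_pos (Fact.out (p := p.Prime)).pos _).ne' |>.1 h5) hl'

end

end Pool.Agent.Lib.StarQ
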