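import Mathlib
import Pool.Agent.Lib.StarQ.LineQ
import Pool.Agent.Lib.StarN.Exist

set_option autoImplicit false
set_option linter.unusedSectionVars false

/-!
# Points with small defect
-/

namespace Pool.Agent.Lib.StarQ

open MvPolynomial Pool.Agent.Lib.Chud Pool.Agent.Lib.P5c592f Pool.Agent.Lib.StarN

section

variable {σ : Type*} [Fintype σ] [DecidableEq σ] {k : Type*} [Field k]

theorem zn_of_monomials {q M : ℕ} {β : Type*} [Fintype β] (B : Module.Basis β k (σ → k))
    {P : σ → k} {T : MvPolynomial σ k} (hT : Zn q P T (M + 1))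
    (hz : ∀ a : β →₀ ℕ, a.degree = M → th q P (T * ∏ l, aff (B.coord l) P ^ a l) = 0) :
    Zn q P T M := by
  intro h hh
  have h1 := mem_span_of_ord B P hh
  suffices OrdGE P M h ∧ th q P (T * h) = 0 from this.2
  clear hh
  induction h1 using Submodule.span_induction with
  | mem x hx =>
    obtain ⟨a, ha, rfl⟩ := hx
    refine ⟨?_, hz a ha⟩
    have h2 : OrdGE P (∑ l, a l) (∏ l, aff (B.coord l) P ^ a l) := by
      apply OrdGE.finset_prod
      intro l _
      have := (aff_ord (B.coord l) P P (by rw [sub_self, map_zero])).pow (a l)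
      rwa [mul_one] at this
    rw [← Finsupp.degree_eq_sum, ha] at h2
    exact h2
  | zero =>
    refine ⟨?_, ?_⟩
    · intro γ _
      rw [map_zero, coeff_zero]
    · rw [mul_zero, th, map_zero, coeff_zero]
  | add x y _ _ hx hy =>
    refine ⟨hx.1.add hy.1, ?_⟩
    rw [mul_add, th_add, hx.2, hy.2, add_zero]
  | smul c x _ hx =>
    refine ⟨hx.1.C_mul c, ?_⟩
    rw [smul_eq_mul, hT.mul hx.1, hx.2, mul_zero]

end

section

variable {σ : Type*} [Fintype σ] [DecidableEq σ] {k : Type*} [Field k] {p : ℕ} [Fact p.Prime]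
  [CharP k p] {ι : Type*} [Fintype ι] [DecidableEq ι] {t : ℕ} {S : ι → σ → k}
  {E : ι → MvPolynomial σ k}

theorem card_R {S : ι → σ → k} {i0 j0 : ι} (hij : i0 ≠ j0) {R : Finset ι}
    (hR : ∀ j, j ∈ R ↔ j ∈ ln S i0 j0 ∧ j ≠ i0 ∧ j ≠ j0) : (ln S i0 j0).ncard = R.card + 2 := by
  have h1 : ln S i0 j0 = ((insert i0 (insert j0 R) : Finset ι) : Set ι) := by
    ext j
    simp only [Finset.coe_insert, Set.mem_insert_iff, Finset.mem_coe]
    constructor
    · intro h
      by_cases h2 : j = i0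
      · exact Or.inl h2
      by_cases h3 : j = j0
      · exact Or.inr (Or.inl h3)
      exact Or.inr (Or.inr ((hR j).2 ⟨h, h2, h3⟩))
    · rintro (h | h | h)
      · rw [h]; exact ln_left S i0 j0
      · rw [h]; exact ln_right S i0 j0
      · exact ((hR j).1 h).1
  have h2 : j0 ∉ R := fun h => ((hR j0).1 h).2.2 rfl
  have h3 : i0 ∉ insert j0 R := by
    rw [Finset.mem_insert]
    rintro (h | h)
    · exact hij h
    · exact ((hR i0).1 h).2.1 rfl
  rw [h1, Set.ncard_coe_finset, Finset.card_insert_of_notMem h3, Finset.card_insert_of_notMem h2]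

/-- a point has `N` lines in independent directions with large exponents -/
theorem basisQ [IsAlgClosed k] (U : Uni t S E) {e r : ℕ} {T : MvPolynomial σ k}
    (hT : TQ S t (p ^ e) r T) {ν : ι → ℕ} (hν : ∀ i, Zn (p ^ e) (S i) T (ν i))
    (hνr : ∀ i, ν i ≤ Fintype.card σ * r + 1) {j0 : ι} {κ : ℕ} (hκ : ν j0 = κ + 1)
    (hmin : ¬ Zn (p ^ e) (S j0) T κ) {i : ι} (hi : i ≠ j0) (ha : Adj S E j0 i) :
    ∃ (b : Set ι) (_ : Fintype b) (B : Module.Basis b k (σ → k)) (a : b →₀ ℕ), i ∈ b ∧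
      (∀ l : b, B l = S l - S j0) ∧ ∑ l, a l = κ ∧ (∀ l : b, (l : ι) ≠ j0) ∧
      th (p ^ e) (S j0) (T * ∏ l : b, aff (B.coord l) (S j0) ^ a l) ≠ 0 ∧
      ∀ (l : b) (R : Finset ι), (∀ j, j ∈ R ↔ j ∈ ln S l j0 ∧ j ≠ l ∧ j ≠ j0) →
        ∀ ex : ι → ℕ, (∀ j ∈ R, ν j + a l ≤ κ + ex j) → r * t < a l + 1 + ∑ j ∈ R, ex j := by
  classical
  set N := Fintype.card σ with hN
  set q := p ^ e with hq
  have hS := U.injective
  set v : ι → σ → k := fun l => S l - S j0 with hv
  have hs : LinearIndepOn k v {i} := by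
    rw [linearIndepOn_singleton_iff]
    intro h
    exact hi (hS (sub_eq_zero.1 h))
  obtain ⟨b, hb1, hb2, hb3, hb4⟩ := exists_linearIndepOn_extension (t := {l | Adj S E j0 l}) hs
    (by rintro _ rfl; exact ha)
  have hsp : (⊤ : Submodule k (σ → k)) ≤ Submodule.span k (Set.range fun l : b => v l) := by
    have h1 := span_adj U hi
    rw [← h1, Submodule.span_le]
    rintro _ ⟨l, hl, rfl⟩
    have h2 := hb3 ⟨l, hl, rfl⟩
    rw [Set.image_eq_range] at h2
    exact h2
  let B : Module.Basis b k (σ → k) := Module.Basis.mk hb4 hsp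
  have hB : ∀ l : b, B l = S l - S j0 := fun l => Module.Basis.mk_apply hb4 hsp l
  have hbf : Fintype b := Fintype.ofFinite b
  have hν0 : Zn q (S j0) T (κ + 1) := by rw [← hκ]; exact hν j0
  obtain ⟨a, ha1, ha2⟩ : ∃ a : b →₀ ℕ, a.degree = κ ∧
      th q (S j0) (T * ∏ l, aff (B.coord l) (S j0) ^ a l) ≠ 0 := by
    by_contra hcon
    push Not at hcon
    exact hmin (zn_of_monomials B hν0 (fun a ha => hcon a ha))
  rw [Finsupp.degree_eq_sum] at ha1
  have hne : ∀ j : b, (j : ι) ≠ j0 := by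
    intro j hj
    apply B.ne_zero j
    rw [hB, hj, sub_self]
  -- coordinates along the line
  have hcoord : ∀ (j l : b) (m : ι), m ∈ ln S (j : ι) j0 → l ≠ j →
      B.coord l (S m - S j0) = 0 := by
    rintro j l m ⟨c, hc⟩ hlj
    have h1 : S m - S j0 = (1 - c) • B j := by
      rw [hc, hB]
      module
    rw [h1, map_smul, Module.Basis.coord_apply, Module.Basis.repr_self,
      Finsupp.single_eq_of_ne hlj, smul_zero]
  refine ⟨b, hbf, B, a, hb2 rfl, hB, ha1, hne, ha2, ?_⟩
  intro j R hR ex hex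
  by_contra hlt
  push Not at hlt
  have hsum : ∑ l ∈ Finset.univ.erase j, a l + a j = κ := by
    rw [Finset.sum_erase_add _ _ (Finset.mem_univ j), ha1]
  have hc := line_constrQ (E := E) U hT hν hνr (hne j) (hb1 j.2)
      (Y := ∏ l ∈ Finset.univ.erase j, aff (B.coord l) (S j0) ^ a l)
      (w := aff (B.coord j) (S j0)) (dY := ∑ l ∈ Finset.univ.erase j, a l) (s := a j)
      (totalDegree_finset_prod_le _ _ _ (fun l _ => by
        refine (totalDegree_pow _ _).trans ?_
        have := Nat.mul_le_mul_left (a l) (aff_deg (B.coord l) (S j0))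
        simpa using this))
      (fun m hm => OrdGE.finset_prod _ _ _ (fun l hl => by
        have := (aff_ord (B.coord l) (S j0) (S m)
          (hcoord j l m hm (Finset.ne_of_mem_erase hl))).pow (a l)
        rwa [mul_one] at this))
      (aff_deg _ _)
      (by
        rintro m ⟨c, hc⟩ m' ⟨c', hc'⟩ hmm h
        apply hmm
        apply hS
        rw [eval_aff, eval_aff] at h
        have h1 : S m - S j0 = (1 - c) • B j := by
          rw [hc, hB]
          module
        have h1' : S m' - S j0 = (1 - c') • B j := by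
          rw [hc', hB]
          module
        rw [h1, h1', map_smul, map_smul, Module.Basis.coord_apply, Module.Basis.repr_self,
          Finsupp.single_eq_same, smul_eq_mul, smul_eq_mul, mul_one, mul_one] at h
        have h2 : c = c' := by linear_combination -h
        rw [hc, hc', h2])
      (by rw [hsum, hκ]) R hR ex (fun m hm => by have := hex m hm; omega) (by omega)
  have h2 : (eval (S j0)) (aff (B.coord j) (S j0)) = 0 := by
    rw [eval_aff, sub_self, map_zero]
  rw [h2, C_0, sub_zero, Finset.prod_erase_mul _ _ (Finset.mem_univ j)] at hc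
  exact ha2 hc

/-- the exponents are at least `r - h` -/
theorem expoQ {N r h κ : ℕ} {β : Type*} [Fintype β] [DecidableEq β] (hβ : Fintype.card β = N)
    {a : β → ℕ} (ha : ∑ l, a l = κ) (hκ : κ ≤ N * r) (hl : ∀ l, r ≤ a l + h) (l : β) :
    a l ≤ r + N * h := by
  have h1 : ∑ j, (a j + h) = κ + N * h := by
    rw [Finset.sum_add_distrib, ha, Finset.sum_const, Finset.card_univ, hβ, smul_eq_mul]
  have h2 : ∑ j ∈ Finset.univ.erase l, (a j + h) + (a l + h) = κ + N * h := by
    rw [Finset.sum_erase_add _ (fun j => a j + h) (Finset.mem_univ l), h1]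
  have h3 : ∑ _j ∈ Finset.univ.erase l, r ≤ ∑ j ∈ Finset.univ.erase l, (a j + h) :=
    Finset.sum_le_sum (fun j _ => hl j)
  rw [Finset.sum_const, Finset.card_erase_of_mem (Finset.mem_univ l), Finset.card_univ, hβ,
    smul_eq_mul] at h3
  have hN : 1 ≤ N := by rw [← hβ]; exact Fintype.card_pos_iff.2 ⟨l⟩
  have h4 : (N - 1) * r + r = N * r := by
    obtain ⟨c, hc⟩ : ∃ c, N = c + 1 := ⟨N - 1, by omega⟩
    rw [hc, Nat.add_sub_cancel]
    ring
  omega

theorem num1 {t r s h c : ℕ} (ht : 1 ≤ t) (hc : c + 1 ≤ t) (h1 : r * t < s + 1 + c * (s + 1 + h)) :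
    r ≤ s + h := by
  by_contra hlt
  push Not at hlt
  have h2 : s + 1 + c * (s + 1 + h) ≤ (c + 1) * (s + 1 + h) := by nlinarith
  have h3 : (c + 1) * (s + 1 + h) ≤ t * (s + 1 + h) := Nat.mul_le_mul_right _ hc
  have h4 : t * (s + 1 + h) ≤ t * r := Nat.mul_le_mul_left _ (by omega)
  have h5 : t * r = r * t := mul_comm _ _
  omega

theorem num2 {N t r s h c : ℕ} (hc : c + 2 ≤ t) (hs : s ≤ r + N * h)
    (hr : t * ((N + 1) * h + 1) ≤ r) : s + 1 + c * (s + 1 + h) ≤ r * t := by
  obtain ⟨u, rfl⟩ : ∃ u, t = c + 2 + u := ⟨t - (c + 2), by omega⟩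
  have h2 : s + 1 + c * (s + 1 + h) ≤ (c + 1) * (s + 1 + h) := by nlinarith
  have h3 : (c + 1) * (s + 1 + h) ≤ (c + 1) * (r + ((N + 1) * h + 1)) :=
    Nat.mul_le_mul_left _ (by nlinarith)
  have h4 : (c + 1) * ((N + 1) * h + 1) ≤ (c + 2 + u) * ((N + 1) * h + 1) :=
    Nat.mul_le_mul_right _ (by omega)
  have h5 : (c + 1) * (r + ((N + 1) * h + 1)) = (c + 1) * r + (c + 1) * ((N + 1) * h + 1) := by ring
  have h6 : (c + 1) * r + r ≤ r * (c + 2 + u) := by nlinarith
  omega

/-- the point with maximal `ν` has no defect -/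
theorem startQ [IsAlgClosed k] [Nonempty σ] (ht : 1 ≤ t) (U : Uni t S E) {e r : ℕ}
    {T : MvPolynomial σ k}
    (hT : TQ S t (p ^ e) r T) {ν : ι → ℕ} (hν : ∀ i, Zn (p ^ e) (S i) T (ν i))
    (hνr : ∀ i, ν i ≤ Fintype.card σ * r + 1) {j0 : ι} {κ : ℕ} (hκ : ν j0 = κ + 1)
    (hmin : ¬ Zn (p ^ e) (S j0) T κ) (hmax : ∀ j, ν j ≤ ν j0) :
    Fintype.card σ * r ≤ κ := by
  classical
  obtain ⟨i, hi, ha⟩ := exists_adj ht U j0
  obtain ⟨b, _, B, a, _, _, hsum, hne, _, key⟩ := basisQ U hT hν hνr hκ hmin hi ha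
  have hbc : Fintype.card b = Fintype.card σ := by
    have := Module.finrank_eq_card_basis B
    rw [Module.finrank_fintype_fun_eq_card] at this
    exact this.symm
  have h1 : ∀ l : b, r ≤ a l := by
    intro l
    set R : Finset ι := Finset.univ.filter (fun j => j ∈ ln S (l : ι) j0 ∧ j ≠ l ∧ j ≠ j0) with hR
    have hR' : ∀ j, j ∈ R ↔ j ∈ ln S (l : ι) j0 ∧ j ≠ l ∧ j ≠ j0 := by
      intro j; rw [hR]; simp
    have hc := card_R (hne l) hR'
    have hle := ncard_ln_le U (hne l)
    have h2 := key l R hR' (fun _ => a l + 1) (fun j _ => by have := hmax j; omega)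
    rw [Finset.sum_const, smul_eq_mul] at h2
    have := num1 (h := 0) (c := R.card) ht (by omega) (by simpa using h2)
    simpa using this
  calc Fintype.card σ * r = ∑ _l : b, r := by
        rw [Finset.sum_const, Finset.card_univ, hbc, smul_eq_mul]
    _ ≤ ∑ l : b, a l := Finset.sum_le_sum (fun l _ => h1 l)
    _ = κ := hsum

/-- lines through a point with small defect to adjacent points are full -/
theorem fullQ [IsAlgClosed k] (ht : 1 ≤ t) (U : Uni t S E) {e r : ℕ} {T : MvPolynomial σ k}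
    (hT : TQ S t (p ^ e) r T) {ν : ι → ℕ} (hν : ∀ i, Zn (p ^ e) (S i) T (ν i))
    (hνr : ∀ i, ν i ≤ Fintype.card σ * r + 1) {j0 : ι} {κ h : ℕ} (hκ : ν j0 = κ + 1)
    (hmin : ¬ Zn (p ^ e) (S j0) T κ) (hh : Fintype.card σ * r ≤ κ + h)
    (hr : t * ((Fintype.card σ + 1) * h + 1) ≤ r)
    {i : ι} (hi : i ≠ j0) (ha : Adj S E j0 i) : Full t S j0 i := by
  classical
  obtain ⟨b, _, B, a, hib, _, hsum, hne, _, key⟩ := basisQ U hT hν hνr hκ hmin hi ha
  have hbc : Fintype.card b = Fintype.card σ := by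
    have := Module.finrank_eq_card_basis B
    rw [Module.finrank_fintype_fun_eq_card] at this
    exact this.symm
  have hκr : κ ≤ Fintype.card σ * r := by have := hνr j0; omega
  have hex : ∀ (l : b) (j : ι), ν j + a l ≤ κ + (a l + 1 + h) := by
    intro l j
    have := hνr j
    omega
  have h1 : ∀ l : b, r ≤ a l + h := by
    intro l
    set R : Finset ι := Finset.univ.filter (fun j => j ∈ ln S (l : ι) j0 ∧ j ≠ l ∧ j ≠ j0) with hR
    have hR' : ∀ j, j ∈ R ↔ j ∈ ln S (l : ι) j0 ∧ j ≠ l ∧ j ≠ j0 := by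
      intro j; rw [hR]; simp
    have hc := card_R (hne l) hR'
    have hle := ncard_ln_le U (hne l)
    have h2 := key l R hR' (fun _ => a l + 1 + h) (fun j _ => hex l j)
    rw [Finset.sum_const, smul_eq_mul] at h2
    exact num1 (c := R.card) ht (by omega) h2
  have h2 := expoQ hbc hsum hκr h1
  refine ⟨hi.symm, ?_⟩
  let l : b := ⟨i, hib⟩
  set R : Finset ι := Finset.univ.filter (fun j => j ∈ ln S (l : ι) j0 ∧ j ≠ l ∧ j ≠ j0) with hR
  have hR' : ∀ j, j ∈ R ↔ j ∈ ln S (l : ι) j0 ∧ j ≠ l ∧ j ≠ j0 := by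
    intro j; rw [hR]; simp
  have hc := card_R (hne l) hR'
  have hle := ncard_ln_le U (hne l)
  have h3 := key l R hR' (fun _ => a l + 1 + h) (fun j _ => hex l j)
  rw [Finset.sum_const, smul_eq_mul] at h3
  rw [ln_symm]
  apply le_antisymm hle
  by_contra hlt
  push Not at hlt
  have h4 := num2 (N := Fintype.card σ) (c := R.card) (h := h) (t := t) (by omega) (h2 l) hr
  omega

/-- small defect propagates along full lines with at least three points -/
theorem propQ [IsAlgClosed k] (ht : 2 ≤ t) (U : Uni t S E) {e r : ℕ} {T : MvPolynomial σ k}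
    (hT : TQ S t (p ^ e) r T) {ν : ι → ℕ} (hν : ∀ i, Zn (p ^ e) (S i) T (ν i))
    (hνr : ∀ i, ν i ≤ Fintype.card σ * r + 1) {j0 : ι} {κ h : ℕ} (hκ : ν j0 = κ + 1)
    (hmin : ¬ Zn (p ^ e) (S j0) T κ) (hh : Fintype.card σ * r ≤ κ + h)
    (hr : t * ((Fintype.card σ + 1) * h + 1) ≤ r)
    {j1 : ι} (hf : Full t S j0 j1) :
    Fintype.card σ * r + 1 ≤ ν j1 + t * ((Fintype.card σ + 1) * h + 1) := by
  classical
  have hS := U.injective
  -- a third point
  obtain ⟨i, hiL, hi0, hi1⟩ : ∃ i ∈ ln S j0 j1, i ≠ j0 ∧ i ≠ j1 := by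
    by_contra hcon
    push Not at hcon
    have h1 : ln S j0 j1 ⊆ ({j0, j1} : Finset ι) := by
      intro i hi
      by_cases h : i = j0
      · simp [h]
      · simp [hcon i hi h]
    have h2 := Set.ncard_le_ncard h1
    rw [Set.ncard_coe_finset, hf.2] at h2
    have h3 := Finset.card_le_two (a := j0) (b := j1)
    omega
  have hfi : Full t S j0 i := hf.of_mem hS hiL hi0
  have hadj : Adj S E j0 i := adj_of_full U hfi.symm
  obtain ⟨b, _, B, a, hib, _, hsum, hne, _, key⟩ := basisQ U hT hν hνr hκ hmin hi0 hadj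
  have hbc : Fintype.card b = Fintype.card σ := by
    have := Module.finrank_eq_card_basis B
    rw [Module.finrank_fintype_fun_eq_card] at this
    exact this.symm
  have hκr : κ ≤ Fintype.card σ * r := by have := hνr j0; omega
  have hex : ∀ (l : b) (j : ι), ν j + a l ≤ κ + (a l + 1 + h) := by
    intro l j
    have := hνr j
    omega
  have h1 : ∀ l : b, r ≤ a l + h := by
    intro l
    set R : Finset ι := Finset.univ.filter (fun j => j ∈ ln S (l : ι) j0 ∧ j ≠ l ∧ j ≠ j0) with hR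
    have hR' : ∀ j, j ∈ R ↔ j ∈ ln S (l : ι) j0 ∧ j ≠ l ∧ j ≠ j0 := by
      intro j; rw [hR]; simp
    have hc := card_R (hne l) hR'
    have hle := ncard_ln_le U (hne l)
    have h2 := key l R hR' (fun _ => a l + 1 + h) (fun j _ => hex l j)
    rw [Finset.sum_const, smul_eq_mul] at h2
    exact num1 (c := R.card) (by omega) (by omega) h2
  have h2 := expoQ hbc hsum hκr h1
  let l : b := ⟨i, hib⟩
  have hl : (l : ι) = i := rfl
  set R : Finset ι := Finset.univ.filter (fun j => j ∈ ln S (l : ι) j0 ∧ j ≠ l ∧ j ≠ j0) with hR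
  have hR' : ∀ j, j ∈ R ↔ j ∈ ln S (l : ι) j0 ∧ j ≠ l ∧ j ≠ j0 := by
    intro j; rw [hR]; simp
  have hc := card_R (hne l) hR'
  have hlneq : ln S i j0 = ln S j0 j1 := by
    rw [ln_symm]
    exact ln_eq hS hiL hi0
  have hj1 : j1 ∈ R := by
    rw [hR', hl, hlneq]
    exact ⟨ln_right S _ _, hi1.symm, hf.1.symm⟩
  rw [hl, hlneq, hf.2] at hc
  have h3 := key l R hR' (fun j => if j = j1 then (ν j1 + a l) - κ else a l + 1 + h) (fun j _ => by
    by_cases hj : j = j1
    · simp only [hj, if_true]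
      omega
    · simp only [hj, if_false]
      exact hex l j)
  rw [← Finset.sum_erase_add _ _ hj1] at h3
  have h4 : ∑ j ∈ R.erase j1, (if j = j1 then (ν j1 + a l) - κ else a l + 1 + h) =
      (t - 2) * (a l + 1 + h) := by
    rw [Finset.sum_congr rfl (fun j hj => if_neg (Finset.ne_of_mem_erase hj)), Finset.sum_const,
      Finset.card_erase_of_mem hj1, smul_eq_mul]
    congr 1
    omega
  simp only [if_true] at h3
  rw [h4] at h3
  have h5 := num2 (N := Fintype.card σ) (c := t - 2) (h := h) (t := t) (by omega) (h2 l) hr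
  obtain ⟨u, rfl⟩ : ∃ u, t = u + 2 := ⟨t - 2, by omega⟩
  have e1 : u + 2 - 2 = u := by omega
  rw [e1] at h3 h5
  have h6 : r * (u + 2) + κ < 2 * a l + 1 + u * (a l + 1 + h) + ν j1 := by omega
  have h7 := h2 l
  have h8 : (u + 2) * a l ≤ (u + 2) * (r + Fintype.card σ * h) := Nat.mul_le_mul_left _ h7
  nlinarith

end

end Pool.Agent.Lib.StarQ
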