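import Mathlib
import Pool.Agent.Lib.StarQ.GoodQ

set_option autoImplicit false
set_option linter.unusedSectionVars false

/-!
# Existence, extra points and the conclusion in characteristic `p`
-/

namespace Pool.Agent.Lib.StarQ

open MvPolynomial Pool.Agent.Lib.Chud Pool.Agent.Lib.P5c592f Pool.Agent.Lib.StarN

section

variable {σ : Type*} [Fintype σ] [DecidableEq σ] {k : Type*} [Field k] [IsAlgClosed k]
  {p : ℕ} [Fact p.Prime] [CharP k p]

/-- the top lemma with a complementary monomial -/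
theorem exists_topQ (e : ℕ) {f : MvPolynomial σ k}
    (hf : f ≠ 0) : ∃ (g : MvPolynomial σ k) (n : ℕ) (b : σ →₀ ℕ), g ≠ 0 ∧
      n + b.degree = Fintype.card σ * (p ^ e - 1) ∧
      cmp (p ^ e) (fe σ (p ^ e)) (f * monomial b 1) ≠ 0 ∧
      p ^ e * g.totalDegree + n ≤ f.totalDegree ∧
      ∀ (P : σ → k) (M j : ℕ), OrdGE P M f → n + p ^ e * j < M + p ^ e → OrdGE P j g := by
  classical
  have hq : 0 < p ^ e := pow_pos (Fact.out (p := p.Prime)).pos _
  obtain ⟨γ₀, hγ₀, hmax⟩ := Finset.exists_max_image f.support (fun γ => (rmd (p ^ e) γ).degree)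
    (by rwa [Finset.nonempty_iff_ne_empty, Ne, support_eq_empty])
  set a := rmd (p ^ e) γ₀ with ha_def
  have ha : ∀ i, a i < p ^ e := rmd_lt hq γ₀
  have hmax' : ∀ γ ∈ f.support, a ≤ rmd (p ^ e) γ → rmd (p ^ e) γ = a := by
    intro γ hγ hle
    obtain ⟨c, hc⟩ := exists_add_of_le hle
    have h1 := hmax γ hγ
    rw [hc, map_add] at h1
    have h2 : c.degree = 0 := by omega
    rw [Finsupp.degree_eq_zero_iff] at h2
    rw [hc, h2, add_zero]
  have hfrob : Function.Surjective (iterateFrobenius k p e) := by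
    intro c
    obtain ⟨b, hb⟩ := IsAlgClosed.exists_pow_nat_eq c hq
    exact ⟨b, by rw [iterateFrobenius_def]; exact hb⟩
  have hfinj : Function.Injective (iterateFrobenius k p e) := RingHom.injective _
  obtain ⟨g, hg⟩ := MvPolynomial.map_surjective (σ := σ) _ hfrob (cmp (p ^ e) a f)
  have hcoef : ∀ δ, coeff δ g ≠ 0 ↔ coeff (a + (p ^ e) • δ) f ≠ 0 := by
    intro δ
    rw [← coeff_cmp ha, ← hg, coeff_map, map_ne_zero]
  have hg0 : g ≠ 0 := by
    intro h0
    have h1 := hcoef (quo (p ^ e) γ₀)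
    rw [ha_def, rmd_add_quo, h0, coeff_zero] at h1
    exact h1.2 (mem_support_iff.1 hγ₀) rfl
  obtain ⟨b, hb⟩ : ∃ b, fe σ (p ^ e) = a + b := by
    apply exists_add_of_le
    intro i
    have := ha i
    rw [fe_apply]
    omega
  refine ⟨g, a.degree, b, hg0, ?_, ?_, ?_, ?_⟩
  · rw [← map_add, ← hb, fe_degree]
  · intro h0
    have h1 : coeff (quo (p ^ e) γ₀) (cmp (p ^ e) (fe σ (p ^ e)) (f * monomial b 1)) ≠ 0 := by
      rw [coeff_cmp (fe_lt hq)]
      have h2 : fe σ (p ^ e) + (p ^ e) • quo (p ^ e) γ₀ = γ₀ + b := by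
        rw [hb]
        have h3 := rmd_add_quo (p ^ e) γ₀
        rw [← ha_def] at h3
        calc a + b + (p ^ e) • quo (p ^ e) γ₀ = (a + (p ^ e) • quo (p ^ e) γ₀) + b := by abel
          _ = _ := by rw [h3]
      rw [h2, coeff_mul_monomial, mul_one]
      exact mem_support_iff.1 hγ₀
    rw [h0, coeff_zero] at h1
    exact h1 rfl
  · obtain ⟨δ, hδ, hdeg⟩ : ∃ δ ∈ g.support, g.totalDegree = δ.degree := by
      obtain ⟨δ, hδ, h⟩ := Finset.exists_mem_eq_sup g.support
        (by rwa [Finset.nonempty_iff_ne_empty, Ne, support_eq_empty])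
        (fun s => s.sum fun _ e => e)
      exact ⟨δ, hδ, h⟩
    have h1 := (hcoef δ).1 (mem_support_iff.1 hδ)
    have h2 := le_totalDegree (mem_support_iff.2 h1)
    have h3 : ((a + (p ^ e) • δ).sum fun _ e => e) = (a + (p ^ e) • δ).degree := rfl
    rw [h3, map_add, map_nsmul, smul_eq_mul] at h2
    rw [hdeg]
    omega
  · intro P M j hord hM δ hδ
    have h1 : map (iterateFrobenius k p e) (tau P g) = cmp (p ^ e) a (tau P f) := by
      rw [cmp_tau e P ha hmax', map_tau, hg]
      rfl
    apply hfinj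
    rw [map_zero, ← coeff_map, h1, coeff_cmp ha]
    apply hord
    rw [map_add, map_nsmul, smul_eq_mul]
    have h2 : δ.degree + 1 ≤ j := hδ
    have h3 : p ^ e * (δ.degree + 1) ≤ p ^ e * j := Nat.mul_le_mul_left _ h2
    have h4 : p ^ e * (δ.degree + 1) = p ^ e * δ.degree + p ^ e := by ring
    omega

variable {ι : Type*} [Fintype ι] [DecidableEq ι] {t : ℕ} {S : ι → σ → k}
  {E : ι → MvPolynomial σ k}

/-- some point is alive -/
theorem exists_aliveQ [Nonempty ι] (U : Uni t S E) {e r : ℕ} {T : MvPolynomial σ k} (hT0 : T ≠ 0)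
    (hT : TQ S t (p ^ e) r T) : ∃ j, ¬ Zn (p ^ e) (S j) T 0 := by
  classical
  set N := Fintype.card σ with hN
  set q := p ^ e with hq
  have hq0 : 0 < q := pow_pos (Fact.out (p := p.Prime)).pos _
  have hsum : N * (q - 1 - r) + N * r = N * (q - 1) := hT.sum
  have hTd := hT.deg
  rw [← hN] at hTd
  obtain ⟨u, hu⟩ : ∃ u, q - 1 = u + r := ⟨q - 1 - r, by have := hT.rq; omega⟩
  have hq1 : q = u + r + 1 := by omega
  have hur : q - 1 - r = u := by omega
  rw [hur] at hTd hsum
  have e1 : u * (t + N) = u * t + N * u := by ring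
  have e2 : q * t = u * t + r * t + t := by rw [hq1]; ring
  rw [e1] at hTd
  obtain ⟨g, n, b, hg0, hn, hcmp, hdeg, hgo⟩ := exists_topQ (p := p) e hT0
  rw [← hq, ← hN] at hn
  have hnN : N * u ≤ n := by
    by_contra hlt
    push Not at hlt
    obtain ⟨j, hj1, hj2⟩ : ∃ j, n + q * (j + 1) < N * u + q ∧ N * u ≤ n + q * (j + 1) := by
      obtain ⟨a, ha⟩ : ∃ a, N * u = n + 1 + a := ⟨N * u - n - 1, by omega⟩
      have h1 := Nat.div_add_mod a q
      have h2 := Nat.mod_lt a hq0
      refine ⟨a / q, ?_, ?_⟩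
      · rw [ha, mul_add, mul_one]
        omega
      · rw [ha, mul_add, mul_one]
        omega
    have h1 := degree_add (p := p) S (fun _ => 1) (t + 1) (fun g hg0 hg => by
      by_contra hlt
      exact hg0 (U.eq_zero (by omega) (fun i => (ordGE_one_iff _ _).1 (hg i)))) j g hg0
      (fun i => by
        rw [add_comm]
        apply hgo (S i) (N * u) (j + 1) _ hj1
        have := hT.ord i
        rwa [hur] at this)
    have h2 : q * (t + 1 + j) ≤ q * g.totalDegree := Nat.mul_le_mul_left _ h1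
    have h3 : q * (t + 1 + j) = q * t + q * (j + 1) := by ring
    have h4 : q * g.totalDegree + n ≤ T.totalDegree := hdeg
    omega
  set f := T * monomial b 1 with hf
  have hfd : f.totalDegree < N * (q - 1) + q * (t + 1) := by
    have h1 : f.totalDegree ≤ T.totalDegree + b.degree := by
      refine (totalDegree_mul _ _).trans (add_le_add le_rfl ?_)
      rw [totalDegree_monomial _ one_ne_zero]
      rfl
    have h2 : q * (t + 1) = q * t + q := by ring
    omega
  have hval := cmp_eq_sum (p := p) U e hfd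
  by_contra hcon
  push Not at hcon
  apply hcmp
  rw [hval]
  apply Finset.sum_eq_zero
  intro i _
  have : th (p ^ e) (S i) f = 0 := hcon i (monomial b 1) OrdGE.zero
  rw [this, C_0, zero_mul]

/-- the dual polynomial of an alive point vanishes at all other points where the orders of `T` are
large -/
theorem extraQ (U : Uni t S E) {e r : ℕ} {T : MvPolynomial σ k}
    (hT : TQ S t (p ^ e) r T) (hbig : (Fintype.card ι + 1) * (Fintype.card σ * r + 1) ≤ p ^ e)
    {j0 : ι} (hg : ¬ Zn (p ^ e) (S j0) T 0) {P : σ → k}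
    (hP : OrdGE P (Fintype.card σ * (p ^ e - 1 - r)) T) (hne : ∀ i, P ≠ S i) :
    eval P (E j0) = 0 := by
  classical
  set N := Fintype.card σ with hN
  set q := p ^ e with hq
  have hS := U.injective
  have hex : ∃ n, Zn q (S j0) T n := ⟨N * r + 1, hT.zn j0⟩
  obtain ⟨κ, hκ⟩ : ∃ κ, Nat.find hex = κ + 1 := by
    refine ⟨Nat.find hex - 1, ?_⟩
    have : Nat.find hex ≠ 0 := by
      intro h0
      have := Nat.find_spec hex
      rw [h0] at this
      exact hg this
    omega
  have hκ1 : Zn q (S j0) T (κ + 1) := by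
    have := Nat.find_spec hex
    rwa [hκ] at this
  have hκ2 : ¬ Zn q (S j0) T κ := Nat.find_min hex (by omega)
  have hκr : κ ≤ N * r := by
    have : Nat.find hex ≤ N * r + 1 := Nat.find_min' hex (hT.zn j0)
    omega
  obtain ⟨a, ha1, ha2⟩ : ∃ a : σ →₀ ℕ, a.degree = κ ∧
      th q (S j0) (T * ∏ l, aff ((Pi.basisFun k σ).coord l) (S j0) ^ a l) ≠ 0 := by
    by_contra hcon
    push Not at hcon
    exact hκ2 (zn_of_monomials (Pi.basisFun k σ) hκ1 (fun a ha => hcon a ha))
  set h : MvPolynomial σ k := ∏ l, aff ((Pi.basisFun k σ).coord l) (S j0) ^ a l with hh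
  have hhd : h.totalDegree ≤ κ := by
    have h1 : h.totalDegree ≤ ∑ l, a l :=
      totalDegree_finset_prod_le _ _ _ (fun l _ => by
        refine (totalDegree_pow _ _).trans ?_
        have := Nat.mul_le_mul_left (a l) (aff_deg ((Pi.basisFun k σ).coord l) (S j0))
        simpa using this)
    rwa [← Finsupp.degree_eq_sum, ha1] at h1
  have hho : OrdGE (S j0) κ h := by
    have h1 : OrdGE (S j0) (∑ l, a l) h := by
      apply OrdGE.finset_prod
      intro l _
      have := (aff_ord ((Pi.basisFun k σ).coord l) (S j0) (S j0)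
        (by rw [sub_self, map_zero])).pow (a l)
      rwa [mul_one] at this
    rwa [← Finsupp.degree_eq_sum, ha1] at h1
  have hsep : ∀ u : σ → k, u ≠ S j0 → ∃ φ : (σ → k) →ₗ[k] k, φ (S j0 - u) ≠ 0 := by
    intro u hu
    have h1 : S j0 - u ∉ Submodule.span k {(0 : σ → k)} := by
      rw [Submodule.span_zero_singleton, Submodule.mem_bot, sub_eq_zero]
      exact hu.symm
    obtain ⟨φ, _, h2⟩ := exists_functional_sep h1
    exact ⟨φ, h2⟩
  have h1 : ∀ i, ∃ φ : (σ → k) →ₗ[k] k, i ≠ j0 → φ (S j0 - S i) ≠ 0 := by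
    intro i
    by_cases hij : i = j0
    · exact ⟨0, fun h => absurd hij h⟩
    · obtain ⟨φ, hφ⟩ := hsep (S i) (fun h => hij (hS h))
      exact ⟨φ, fun _ => hφ⟩
  choose φ hφ using h1
  obtain ⟨ψ, hψ⟩ := hsep P (hne j0)
  set D : MvPolynomial σ k := ∏ i ∈ Finset.univ.erase j0, aff (φ i) (S i) ^ (N * r + 1) with hD
  set G : MvPolynomial σ k := aff ψ P ^ (N * r + 1) with hG
  have hpow : ∀ (φ : (σ → k) →ₗ[k] k) (Q : σ → k),
      (aff φ Q ^ (N * r + 1)).totalDegree ≤ N * r + 1 := by
    intro φ Q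
    refine (totalDegree_pow _ _).trans ?_
    have := Nat.mul_le_mul_left (N * r + 1) (aff_deg φ Q)
    simpa using this
  have hpo : ∀ (φ : (σ → k) →ₗ[k] k) (Q : σ → k), OrdGE Q (N * r + 1) (aff φ Q ^ (N * r + 1)) := by
    intro φ Q
    have := (aff_ord φ Q Q (by rw [sub_self, map_zero])).pow (N * r + 1)
    rwa [mul_one] at this
  have hDd : D.totalDegree ≤ (Fintype.card ι - 1) * (N * r + 1) := by
    have h2 : D.totalDegree ≤ ∑ i ∈ Finset.univ.erase j0, (N * r + 1) :=
      totalDegree_finset_prod_le _ _ _ (fun i _ => hpow _ _)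
    rw [Finset.sum_const, smul_eq_mul, Finset.card_erase_of_mem (Finset.mem_univ j0),
      Finset.card_univ] at h2
    exact h2
  set f : MvPolynomial σ k := T * ((D * G) * h) with hf
  have hcι : 1 ≤ Fintype.card ι := Fintype.card_pos_iff.2 ⟨j0⟩
  have hfd : f.totalDegree < N * (q - 1) + q * (t + 1) := by
    have h2 : f.totalDegree ≤ T.totalDegree +
        (((Fintype.card ι - 1) * (N * r + 1) + (N * r + 1)) + κ) := by
      refine (totalDegree_mul _ _).trans (add_le_add le_rfl ?_)
      refine (totalDegree_mul _ _).trans (add_le_add ?_ hhd)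
      exact (totalDegree_mul _ _).trans (add_le_add hDd (hpow _ _))
    refine lt_of_le_of_lt h2 ?_
    have h3 : (Fintype.card ι - 1) * (N * r + 1) + (N * r + 1) + (N * r + 1) =
        (Fintype.card ι + 1) * (N * r + 1) := by
      obtain ⟨c, hc⟩ : ∃ c, Fintype.card ι = c + 1 := ⟨Fintype.card ι - 1, by omega⟩
      rw [hc]
      simp only [Nat.add_sub_cancel]
      ring
    have hTd := hT.deg
    obtain ⟨u, hu⟩ : ∃ u, q - 1 = u + r := ⟨q - 1 - r, by have := hT.rq; omega⟩
    have hq0 : 0 < q := pow_pos (Fact.out (p := p.Prime)).pos _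
    have hq1 : q = u + r + 1 := by omega
    have e1 : q - 1 - r = u := by omega
    rw [e1, ← hN] at hTd
    have e2 : q * (t + 1) = u * t + r * t + t + q := by rw [hq1]; ring
    have e3 : u * (t + N) = u * t + N * u := by ring
    have e4 : N * (q - 1) = N * u + N * r := by rw [hu]; ring
    rw [e3] at hTd
    rw [e2, e4]
    omega
  have hsum : N * (q - 1 - r) + N * r = N * (q - 1) := hT.sum
  have hz : ∀ i, i ≠ j0 → th q (S i) f = 0 := by
    intro i hi
    apply hT.zn i
    have h4 : D = aff (φ i) (S i) ^ (N * r + 1) *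
        ∏ x ∈ (Finset.univ.erase j0).erase i, aff (φ x) (S x) ^ (N * r + 1) :=
      (Finset.mul_prod_erase (Finset.univ.erase j0) (fun x => aff (φ x) (S x) ^ (N * r + 1))
        (Finset.mem_erase.2 ⟨hi, Finset.mem_univ i⟩)).symm
    have h5 : D * G * h = (h * ((∏ x ∈ (Finset.univ.erase j0).erase i,
        aff (φ x) (S x) ^ (N * r + 1)) * G)) * aff (φ i) (S i) ^ (N * r + 1) := by
      rw [h4]; ring
    rw [h5]
    exact (hpo (φ i) (S i)).C_mul _
  have hzP : th q P f = 0 := by
    have h2 : OrdGE P (N * (q - 1 - r) + (N * r + 1)) f := by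
      have h3 : OrdGE P (N * r + 1) (D * G * h) := by
        have h5 : D * G * h = (h * D) * G := by ring
        rw [h5]
        exact (hpo ψ P).C_mul _
      exact hP.mul h3
    exact th_zero_of_ord h2 (by rw [← hN]; omega)
  have h2 := th_eq_sum U e hfd P
  rw [← hq, hzP, Finset.sum_eq_single j0 (fun i _ hi => by rw [hz i hi, zero_mul])
    (fun h => absurd (Finset.mem_univ j0) h)] at h2
  rw [hf, hκ1.mul hho, map_mul] at h2
  have h4 : eval (S j0) D ≠ 0 := by
    rw [hD, map_prod, Finset.prod_ne_zero_iff]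
    intro i hi
    rw [map_pow, eval_aff]
    exact pow_ne_zero _ (hφ i (Finset.ne_of_mem_erase hi))
  have h5 : eval (S j0) G ≠ 0 := by
    rw [hG, map_pow, eval_aff]
    exact pow_ne_zero _ hψ
  have h6 := mul_ne_zero (mul_ne_zero h4 h5) ha2
  have h7 := (mul_eq_zero.1 h2.symm).resolve_left h6
  exact pow_eq_zero_iff (pow_pos (Fact.out (p := p.Prime)).pos _).ne' |>.1 h7

/-- the bounds for the defects -/
def hh (N t : ℕ) : ℕ → ℕ
  | 0 => 0
  | n + 1 => t * ((N + 1) * hh N t n + 1)

theorem hh_succ_le {N t : ℕ} (ht : 1 ≤ t) (n : ℕ) : hh N t n ≤ hh N t (n + 1) := by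
  show hh N t n ≤ t * ((N + 1) * hh N t n + 1)
  have h1 : 1 * ((N + 1) * hh N t n + 1) ≤ t * ((N + 1) * hh N t n + 1) :=
    Nat.mul_le_mul_right _ ht
  have h2 : 1 * hh N t n ≤ (N + 1) * hh N t n := Nat.mul_le_mul_right _ (by omega)
  omega

theorem hh_mono {N t : ℕ} (ht : 1 ≤ t) : Monotone (hh N t) := monotone_nat_of_le_succ (hh_succ_le ht)

end

section

variable {σ : Type*} [Fintype σ] [DecidableEq σ] {k : Type*} [Field k] [IsAlgClosed k]
  {ι : Type*} [Fintype ι] [DecidableEq ι] {t : ℕ} {S : ι → σ → k}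
  {E : ι → MvPolynomial σ k}

/-- the conclusion in characteristic `p` -/
theorem charp_mainQ (p : ℕ) [Fact p.Prime] [CharP k p] [Nonempty ι] [Nonempty σ] (ht : 2 ≤ t)
    (U : Uni t S E) {P : σ → k}
    (hF : ∀ m : ℕ, ∃ F : MvPolynomial σ k, F ≠ 0 ∧
      Fintype.card σ * F.totalDegree ≤ m * (t + Fintype.card σ) + (Fintype.card σ - 1) * t ∧
      (∀ i, OrdGE (S i) m F) ∧ OrdGE P m F) :
    (∀ i j, i ≠ j → Adj S E i j → Full t S i j) ∧ ∃ i, P = S i := by
  classical
  set N := Fintype.card σ with hN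
  have hN1 : 1 ≤ N := Fintype.card_pos
  have ht1 : 1 ≤ t := by omega
  set r := hh N t (Fintype.card ι + 1) with hr
  set M := (Fintype.card ι + 1) * (N * r + 1) + r + 1 with hM
  have hMq : M < p ^ M := Nat.lt_pow_self (Fact.out (p := p.Prime)).one_lt
  set q := p ^ M with hq
  obtain ⟨T, hT0, hTd, hTo, hTP⟩ := hF (N * (q - 1 - r))
  have hT : TQ S t q r T := by
    refine ⟨by omega, ?_, ?_, ?_⟩
    · rw [← hN]
      have h1 : Fintype.card ι * (N * r + 1) ≤ (Fintype.card ι + 1) * (N * r + 1) :=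
        Nat.mul_le_mul_right _ (by omega)
      omega
    · rw [← hN]
      by_contra hlt
      push Not at hlt
      have h1 : (q - 1 - r) * (t + N) + t ≤ T.totalDegree := by omega
      have h2 := Nat.mul_le_mul_left N h1
      obtain ⟨c, hc⟩ : ∃ c, N = c + 1 := ⟨N - 1, by omega⟩
      have h3 : N * ((q - 1 - r) * (t + N) + t) = N * (q - 1 - r) * (t + N) + (c * t + t) := by
        rw [hc]; ring
      have h4 : (N - 1) * t = c * t := by rw [hc, Nat.add_sub_cancel]
      rw [h3] at h2
      rw [h4] at hTd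
      omega
    · exact hTo
  have hbig : (Fintype.card ι + 1) * (Fintype.card σ * r + 1) ≤ p ^ M := by
    rw [← hN, ← hq]; omega
  have hex : ∀ i, ∃ n, Zn q (S i) T n := fun i => ⟨N * r + 1, hT.zn i⟩
  let ν : ι → ℕ := fun i => Nat.find (hex i)
  have hν : ∀ i, Zn q (S i) T (ν i) := fun i => Nat.find_spec (hex i)
  have hνr : ∀ i, ν i ≤ N * r + 1 := fun i => Nat.find_min' (hex i) (hT.zn i)
  have hνmin : ∀ i κ, ν i = κ + 1 → ¬ Zn q (S i) T κ := fun i κ h =>
    Nat.find_min (hex i) (by show κ < ν i; omega)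
  -- the start
  obtain ⟨j, hj⟩ := exists_aliveQ U hT0 hT
  have hj1 : ν j ≠ 0 := by
    intro h0
    apply hj
    have := hν j
    rwa [h0] at this
  obtain ⟨j0, -, hj0⟩ := Finset.exists_max_image (Finset.univ : Finset ι) ν
    ⟨j, Finset.mem_univ j⟩
  have hj0' : ∀ i, ν i ≤ ν j0 := fun i => hj0 i (Finset.mem_univ i)
  have hstart : N * r + 1 ≤ ν j0 := by
    have h1 := hj0' j
    obtain ⟨κ, hκ⟩ : ∃ κ, ν j0 = κ + 1 := ⟨ν j0 - 1, by omega⟩
    have : N * r ≤ κ := startQ ht1 U hT hν hνr hκ (hνmin _ _ hκ) hj0'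
    omega
  let A : ℕ → Finset ι := fun n => Finset.univ.filter (fun i => N * r + 1 ≤ ν i + hh N t n)
  have hA : ∀ n i, i ∈ A n ↔ N * r + 1 ≤ ν i + hh N t n := by
    intro n i
    simp [A]
  have hrN : r ≤ N * r := by
    have := Nat.mul_le_mul_right r hN1
    omega
  have hnr : ∀ n, n ≤ Fintype.card ι → t * ((N + 1) * hh N t n + 1) ≤ r := by
    intro n hn
    exact hh_mono (N := N) ht1 (show n + 1 ≤ Fintype.card ι + 1 by omega)
  have hkap : ∀ n, n ≤ Fintype.card ι → ∀ i ∈ A n, ∃ κ, ν i = κ + 1 ∧ N * r ≤ κ + hh N t n := by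
    intro n hn i hi
    rw [hA] at hi
    have h1 := hnr n hn
    have h2 := hh_succ_le (N := N) ht1 n
    have h3 : hh N t (n + 1) = t * ((N + 1) * hh N t n + 1) := rfl
    exact ⟨ν i - 1, by omega, by omega⟩
  have hfull : ∀ n, n ≤ Fintype.card ι → ∀ i ∈ A n, ∀ j, i ≠ j → Adj S E i j → Full t S i j := by
    intro n hn i hi j hij ha
    obtain ⟨κ, hκ, hκ2⟩ := hkap n hn i hi
    exact fullQ ht1 U hT hν hνr hκ (hνmin _ _ hκ) hκ2 (hnr n hn) (Ne.symm hij) ha
  have hstep : ∀ n, n ≤ Fintype.card ι → (n + 1 ≤ (A n).card ∨ A n = Finset.univ) := by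
    intro n
    induction n with
    | zero =>
      intro _
      left
      have : j0 ∈ A 0 := by
        rw [hA]
        omega
      have := Finset.card_pos.2 ⟨j0, this⟩
      omega
    | succ n ih =>
      intro hn
      have hsub : A n ⊆ A (n + 1) := by
        intro i hi
        rw [hA] at hi ⊢
        have := hh_succ_le (N := N) ht1 n
        omega
      by_cases hu : A n = Finset.univ
      · right
        rw [hu] at hsub
        exact Finset.univ_subset_iff.1 hsub
      · left
        have h1 := (ih (by omega)).resolve_right hu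
        have h2 : ∃ i ∈ A n, ∃ j, Adj S E i j ∧ j ∉ A n := by
          by_contra hcon
          push Not at hcon
          apply hu
          rw [Finset.eq_univ_iff_forall]
          have h3 : (A n).Nonempty := Finset.card_pos.1 (by omega)
          obtain ⟨x, hx⟩ := h3
          exact conn U {i | i ∈ A n} ⟨x, hx⟩ (fun i hi j hj => hcon i hi j hj)
        obtain ⟨i, hi, j, hij, hj⟩ := h2
        have hne : i ≠ j := by
          rintro rfl
          exact hj hi
        have hf := hfull n (by omega) i hi j hne hij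
        obtain ⟨κ, hκ, hκ2⟩ := hkap n (by omega) i hi
        have h4 := propQ ht U hT hν hνr hκ (hνmin _ _ hκ) hκ2 (hnr n (by omega)) hf
        have h5 : j ∈ A (n + 1) := by
          rw [hA]
          exact h4
        have h6 : insert j (A n) ⊆ A (n + 1) := Finset.insert_subset h5 hsub
        have h7 := Finset.card_le_card h6
        rw [Finset.card_insert_of_notMem hj] at h7
        omega
  have hall : A (Fintype.card ι) = Finset.univ := by
    rcases hstep _ le_rfl with h | h
    · have := Finset.card_le_univ (A (Fintype.card ι))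
      omega
    · exact h
  have hall' : ∀ i, i ∈ A (Fintype.card ι) := fun i => by rw [hall]; exact Finset.mem_univ i
  refine ⟨fun i j hij ha => hfull _ le_rfl i (hall' i) j hij ha, ?_⟩
  by_contra hcon
  push Not at hcon
  have h1 : ∀ i, eval P (E i) = 0 := by
    intro i
    apply extraQ U hT hbig _ hTP hcon
    intro h0
    obtain ⟨κ, hκ, _⟩ := hkap _ le_rfl i (hall' i)
    exact hνmin i κ hκ (h0.mono (Nat.zero_le _))
  have h2 := U.expand (1 : MvPolynomial σ k) (by simp)
  have h3 := congrArg (eval P) h2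
  rw [map_one, map_sum] at h3
  have h4 : ∑ i, eval P (C (eval (S i) (1 : MvPolynomial σ k)) * E i) = 0 := by
    apply Finset.sum_eq_zero
    intro i _
    rw [map_mul, h1, mul_zero]
  rw [h4] at h3
  exact one_ne_zero h3

end

end Pool.Agent.Lib.StarQ
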