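import Mathlib
import Pool.Agent.Lib.StarN.Affine

set_option autoImplicit false

/-!
# Semicontinuity: forms of given degree and order survive reduction
-/

namespace Pool.Agent.Lib.StarQ

open MvPolynomial Pool.Agent.Lib.Chud Pool.Agent.Lib.P5c592f Pool.Agent.Lib.StarN

/-- a matrix over a ring embedded in a field with a nonzero kernel vector over the field has a
nonzero kernel vector over every other field -/
theorem mat_semi {R C : Type*} [Finite R] [Fintype C] {B : Type*} [CommRing B] {k K : Type*}
    [Field k] [Field K] {ψ : B →+* k} (hψ : Function.Injective ψ) (φ : B →+* K)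
    (M : Matrix R C B) {v : C → k} (hv : v ≠ 0) (hMv : (M.map ψ).mulVec v = 0) :
    ∃ w : C → K, w ≠ 0 ∧ (M.map φ).mulVec w = 0 := by
  classical
  by_contra hcon
  push Not at hcon
  let r : R → (C → K) := fun i => (M.map φ) i
  have hspan : Submodule.span K (Set.range r) = ⊤ := by
    by_contra hne
    obtain ⟨f, hf, hf'⟩ := Submodule.exists_le_ker_of_lt_top _ (lt_top_iff_ne_top.2 hne)
    let w : C → K := fun c => f (Pi.single c 1)
    have hfw : ∀ x : C → K, f x = ∑ c, x c * w c := by
      intro x
      conv_lhs => rw [← Finset.univ_sum_single x, map_sum]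
      apply Finset.sum_congr rfl
      intro c _
      have h : (Pi.single c (x c) : C → K) = (x c) • Pi.single c 1 := by
        rw [← Pi.single_smul, smul_eq_mul, mul_one]
      rw [h, map_smul, smul_eq_mul]
    have hw : w ≠ 0 := by
      intro h0
      apply hf
      ext x
      rw [LinearMap.comp_apply, hfw]
      simp [h0]
    apply hcon w hw
    funext i
    have h1 : f (r i) = 0 := hf' (Submodule.subset_span ⟨i, rfl⟩)
    rw [hfw] at h1
    exact h1
  obtain ⟨κ, a, ha, hsp, hli⟩ := exists_linearIndependent' K r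
  rw [hspan] at hsp
  let Bb : Module.Basis κ K (C → K) := Module.Basis.mk hli hsp.ge
  have hκf : Finite κ := Module.Finite.finite_basis Bb
  have hκ : Fintype κ := Fintype.ofFinite κ
  have hcard : Fintype.card C = Fintype.card κ := by
    have := Module.finrank_eq_card_basis Bb
    rwa [Module.finrank_fintype_fun_eq_card] at this
  let eq : C ≃ κ := Fintype.equivOfCardEq hcard
  let M' : Matrix C C B := M.submatrix (fun c => a (eq c)) id
  have h1 : LinearIndependent K (fun i => (M'.map φ) i) := by
    have h2 : (fun i => (M'.map φ) i) = (r ∘ a) ∘ eq := by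
      funext i c
      rfl
    rw [h2]
    exact hli.comp eq eq.injective
  have h2 : IsUnit (M'.map φ) := Matrix.linearIndependent_rows_iff_isUnit.1 h1
  have h3 : (M'.map φ).det ≠ 0 := ((Matrix.isUnit_iff_isUnit_det _).1 h2).ne_zero
  have h4 : (M'.map ψ).det = 0 := by
    rw [← Matrix.exists_mulVec_eq_zero_iff]
    refine ⟨v, hv, ?_⟩
    funext c
    exact congrFun hMv (a (eq c))
  have h5 : M'.det = 0 := by
    apply hψ
    rw [map_zero, ← h4]
    exact RingHom.map_det ψ M'
  apply h3
  have h6 := RingHom.map_det φ M'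
  rw [h5, map_zero] at h6
  exact h6.symm

section

variable {σ : Type*} [Fintype σ] {K : Type*} [Field K]

theorem coeff_tau_sum {J : Type*} [Fintype J] (α : J → (σ →₀ ℕ)) (w : J → K) (P : σ → K)
    (γ : σ →₀ ℕ) : coeff γ (tau P (∑ c, monomial (α c) (w c))) =
      ∑ c, coeff γ (tau P (monomial (α c) 1)) * w c := by
  rw [map_sum, coeff_sum]
  apply Finset.sum_congr rfl
  intro c _
  have h : monomial (α c) (w c) = C (w c) * monomial (α c) (1 : K) := by
    rw [C_mul_monomial, mul_one]
  rw [h, map_mul, tau_C, coeff_C_mul, mul_comm]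

theorem coeff_map_tau {B : Type*} [CommRing B] (θ : B →+* K) (P : σ → B) (α γ : σ →₀ ℕ) :
    θ (coeff γ (tau P (monomial α 1))) = coeff γ (tau (fun l => θ (P l)) (monomial α 1)) := by
  rw [← coeff_map, map_tau, map_monomial, map_one]

end

theorem semi {σ ι : Type*} [Fintype σ] [Fintype ι] {B : Type*} [CommRing B] {k K : Type*}
    [Field k] [Field K] {ψ : B →+* k} (hψ : Function.Injective ψ) (φ : B →+* K)
    (SB : ι → σ → B) (d m : ℕ)
    (h : ∃ F : MvPolynomial σ k, F ≠ 0 ∧ F.totalDegree ≤ d ∧
      ∀ i, OrdGE (fun l => ψ (SB i l)) m F) :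
    ∃ F : MvPolynomial σ K, F ≠ 0 ∧ F.totalDegree ≤ d ∧ ∀ i, OrdGE (fun l => φ (SB i l)) m F := by
  classical
  obtain ⟨F, hF0, hFd, hFo⟩ := h
  have hCf : Finite {α : σ →₀ ℕ // α.degree ≤ d} := Finsupp.finite_of_degree_le d
  have hRf : Finite {α : σ →₀ ℕ // α.degree ≤ m} := Finsupp.finite_of_degree_le m
  have hC : Fintype {α : σ →₀ ℕ // α.degree ≤ d} := Fintype.ofFinite _
  let M : Matrix {x : ι × {γ : σ →₀ ℕ // γ.degree ≤ m} // x.2.1.degree < m}
      {α : σ →₀ ℕ // α.degree ≤ d} B :=
    fun x α => coeff x.1.2.1 (tau (SB x.1.1) (monomial α.1 1))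
  have hsum : F = ∑ c : {α : σ →₀ ℕ // α.degree ≤ d}, monomial c.1 (coeff c.1 F) := by
    ext γ
    rw [coeff_sum]
    by_cases hγ : γ.degree ≤ d
    · rw [Finset.sum_eq_single ⟨γ, hγ⟩]
      · rw [coeff_monomial, if_pos rfl]
      · intro b _ hb
        rw [coeff_monomial, if_neg]
        intro h
        exact hb (Subtype.ext h)
      · intro h
        exact absurd (Finset.mem_univ _) h
    · have h0 : coeff γ F = 0 := by
        by_contra hne
        apply hγ
        exact (le_totalDegree (mem_support_iff.2 hne)).trans hFd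
      rw [h0]
      symm
      apply Finset.sum_eq_zero
      intro b _
      rw [coeff_monomial, if_neg]
      rintro rfl
      exact hγ b.2
  have hv : (fun c : {α : σ →₀ ℕ // α.degree ≤ d} => coeff c.1 F) ≠ 0 := by
    intro h0
    apply hF0
    rw [hsum]
    apply Finset.sum_eq_zero
    intro c _
    have := congrFun h0 c
    simp only [Pi.zero_apply] at this
    rw [this, monomial_zero]
  obtain ⟨w, hw, hMw⟩ := mat_semi hψ φ M hv (by
    funext x
    have h1 := hFo x.1.1 x.1.2.1 x.2
    rw [hsum, coeff_tau_sum] at h1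
    rw [Pi.zero_apply, ← h1]
    apply Finset.sum_congr rfl
    intro c _
    show ψ (coeff _ _) * _ = _
    rw [coeff_map_tau])
  refine ⟨∑ c : {α : σ →₀ ℕ // α.degree ≤ d}, monomial c.1 (w c), ?_, ?_, ?_⟩
  · intro h0
    apply hw
    funext c
    have h1 := congrArg (coeff c.1) h0
    rw [coeff_sum, coeff_zero, Finset.sum_eq_single c] at h1
    · rw [coeff_monomial, if_pos rfl] at h1
      exact h1
    · intro b _ hb
      rw [coeff_monomial, if_neg]
      intro h
      exact hb (Subtype.ext h)
    · intro h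
      exact absurd (Finset.mem_univ _) h
  · apply totalDegree_finsetSum_le
    intro c _
    exact (totalDegree_monomial_le _ _).trans c.2
  · intro i γ hγ
    rw [coeff_tau_sum]
    have h1 := congrFun hMw ⟨(i, ⟨γ, hγ.le⟩), hγ⟩
    rw [Pi.zero_apply] at h1
    rw [← h1]
    apply Finset.sum_congr rfl
    intro c _
    show _ = φ (coeff _ _) * _
    rw [coeff_map_tau]

end Pool.Agent.Lib.StarQ
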