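import Mathlib
import Pool.Agent.Lib.StarQ.MainQ
import Pool.Agent.Lib.StarQ.Semi
import Pool.Agent.Lib.StarN.Affine

set_option autoImplicit false
set_option linter.unusedSectionVars false

/-!
# Transfer of the main theorem to all fields
-/

namespace Pool.Agent.Lib.StarQ

open MvPolynomial Pool.Agent.Lib.Chud Pool.Agent.Lib.P5c592f Pool.Agent.Lib.StarN

universe u

section

variable {σ : Type*} [Fintype σ] [DecidableEq σ] {ι : Type*} [Fintype ι] [DecidableEq ι]
  {k : Type u} [Field k] {t : ℕ} {S : ι → σ → k} {E : ι → MvPolynomial σ k}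

theorem affine_coreQ [Nonempty ι] [Nonempty σ] (ht : 2 ≤ t) (U : Uni t S E) {P : σ → k}
    (hF : ∀ m : ℕ, ∃ F : MvPolynomial σ k, F ≠ 0 ∧
      Fintype.card σ * F.totalDegree ≤ m * (t + Fintype.card σ) + (Fintype.card σ - 1) * t ∧
      (∀ i, OrdGE (S i) m F) ∧ OrdGE P m F) :
    (∀ i j, i ≠ j → Adj S E i j → Full t S i j) ∧ ∃ i, P = S i := by
  classical
  let X : Set k := (⋃ i, Set.range (S i)) ∪ Set.range P ∪ (⋃ i, ((E i).coeffs : Set k))
  let W : Set k := Set.range (fun x : ι × σ => P x.2 - S x.1 x.2) ∪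
    Set.range (fun x : ι × ι × σ => eval (S x.2.1) (pderiv x.2.2 (E x.1))) ∪
    Set.range (fun x : (ι × ι × ι) × (σ × σ) =>
      (S x.1.1 x.2.1 - S x.1.2.1 x.2.1) * (S x.1.2.2 x.2.2 - S x.1.2.1 x.2.2) -
      (S x.1.1 x.2.2 - S x.1.2.1 x.2.2) * (S x.1.2.2 x.2.1 - S x.1.2.1 x.2.1))
  have hX : X.Finite := ((Set.finite_iUnion fun i => Set.finite_range _).union
    (Set.finite_range _)).union (Set.finite_iUnion fun i => Finset.finite_toSet _)
  have hW : W.Finite := ((Set.finite_range _).union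
    (Set.finite_range _)).union (Set.finite_range _)
  obtain ⟨B, K, hKf, hKa, p, hp, hcp, φ, hXB, hWB⟩ := spread X W hX hW
  have : Fact p.Prime := ⟨hp⟩
  let ψ : B →+* k := B.val.toRingHom
  have hψ : Function.Injective ψ := Subtype.val_injective
  have hψv : ∀ y : B, ψ y = (y : k) := fun y => rfl
  let SB : ι → σ → B := fun i l => ⟨S i l, hXB _ (Or.inl (Or.inl
    (Set.mem_iUnion.2 ⟨i, ⟨l, rfl⟩⟩)))⟩
  let PB : σ → B := fun l => ⟨P l, hXB _ (Or.inl (Or.inr ⟨l, rfl⟩))⟩
  have hSB : ∀ i, (fun l => ψ (SB i l)) = S i := fun i => rfl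
  have hPB : (fun l => ψ (PB l)) = P := rfl
  have hlift : ∀ G : MvPolynomial σ k, (∀ x ∈ G.coeffs, x ∈ B) →
      ∃ GB : MvPolynomial σ B, MvPolynomial.map ψ GB = G := by
    intro G hG
    have : G ∈ Set.range (MvPolynomial.map ψ : MvPolynomial σ B →+* MvPolynomial σ k) := by
      rw [mem_range_map_iff_coeffs_subset]
      intro x hx
      exact ⟨⟨x, hG x hx⟩, rfl⟩
    exact this
  have hE : ∀ i, ∃ GB : MvPolynomial σ B, MvPolynomial.map ψ GB = E i := fun i =>
    hlift (E i) (fun x hx => hXB x (Or.inr (Set.mem_iUnion.2 ⟨i, hx⟩)))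
  choose EB hEB using hE
  have UB : Uni t SB EB := by
    apply Uni.of_map hψ
    have h1 : (fun i => MvPolynomial.map ψ (EB i)) = E := funext hEB
    rw [h1]
    exact U
  have hNpos : 0 < Fintype.card σ := Fintype.card_pos
  have hF' : ∀ m : ℕ, ∃ F : MvPolynomial σ K, F ≠ 0 ∧
      Fintype.card σ * F.totalDegree ≤ m * (t + Fintype.card σ) + (Fintype.card σ - 1) * t ∧
      (∀ i, OrdGE (fun l => φ (SB i l)) m F) ∧ OrdGE (fun l => φ (PB l)) m F := by
    intro m
    obtain ⟨F, hF0, hFd, hFo, hFP⟩ := hF m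
    let SO : Option ι → σ → B := fun o => o.elim PB SB
    obtain ⟨F', hF'0, hF'd, hF'o⟩ := semi hψ φ SO
      ((m * (t + Fintype.card σ) + (Fintype.card σ - 1) * t) / Fintype.card σ) m
      ⟨F, hF0, by
        rw [Nat.le_div_iff_mul_le hNpos, mul_comm]
        exact hFd, by
        intro o
        cases o with
        | none => exact hFP
        | some i => exact hFo i⟩
    refine ⟨F', hF'0, ?_, fun i => hF'o (some i), hF'o none⟩
    rw [Nat.le_div_iff_mul_le hNpos, mul_comm] at hF'd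
    exact hF'd
  obtain ⟨h1, h2⟩ := charp_mainQ p ht (UB.map φ) hF'
  have hinj := U.injective
  have hinj' := (UB.map φ).injective
  refine ⟨?_, ?_⟩
  · intro i j hij ha
    have ha' : Adj (fun i l => φ (SB i l)) (fun i => MvPolynomial.map φ (EB i)) i j := by
      obtain ⟨l, hl⟩ := ha
      refine ⟨l, ?_⟩
      rw [pderiv_map, eval_map_comp]
      have h3 : ((eval (SB j) (pderiv l (EB i)) : B) : k) = eval (S j) (pderiv l (E i)) := by
        rw [← hψv, ← eval_map_comp ψ, ← pderiv_map, hEB, hSB]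
      apply hWB
      · refine Or.inl (Or.inr ?_)
        rw [h3]
        exact ⟨(i, j, l), rfl⟩
      · rw [h3]
        exact hl
    have hf := h1 i j hij ha'
    refine ⟨hij, ?_⟩
    have hsub : ln (fun i l => φ (SB i l)) i j ⊆ ln S i j := by
      intro m hm
      rw [mem_ln_iff (fun h => hij (hinj' h))] at hm
      rw [mem_ln_iff (fun h => hij (hinj h))]
      intro a b
      by_contra hne
      have h3 := hWB ((SB m a - SB i a) * (SB j b - SB i b) - (SB m b - SB i b) * (SB j a - SB i a))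
        (Or.inr ⟨((m, i, j), (a, b)), rfl⟩) hne
      apply h3
      rw [map_sub, map_mul, map_mul, map_sub, map_sub, map_sub, map_sub]
      exact hm a b
    have h3 := Set.ncard_le_ncard hsub (Set.toFinite _)
    rw [hf.2] at h3
    exact le_antisymm (ncard_ln_le U hij) h3
  · obtain ⟨i, hi⟩ := h2
    refine ⟨i, ?_⟩
    funext l
    by_contra hne
    have h3 := hWB (PB l - SB i l) (Or.inl (Or.inl ⟨(i, l), rfl⟩)) (sub_ne_zero.2 hne)
    apply h3
    rw [map_sub, sub_eq_zero]
    exact congrFun hi l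

/-- the general form: every point where the family vanishes is one of the given points -/
theorem affine_mainQ [Nonempty ι] [Nonempty σ] (ht : 1 ≤ t) (U : Uni t S E) {A : Set (σ → k)}
    (hA : ∀ i, S i ∈ A)
    (hF : ∀ m : ℕ, ∃ F : MvPolynomial σ k, F ≠ 0 ∧
      Fintype.card σ * F.totalDegree ≤ m * (t + Fintype.card σ) + (Fintype.card σ - 1) * t ∧
      ∀ P ∈ A, OrdGE P m F) :
    (∀ i j, i ≠ j → Adj S E i j → Full t S i j) ∧ ∀ P ∈ A, ∃ i, P = S i := by
  by_cases ht2 : 2 ≤ t
  · have h1 : ∀ P ∈ A, _ := fun P hP => affine_coreQ ht2 U (P := P) (fun m => by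
      obtain ⟨F, hF0, hFd, hFo⟩ := hF m
      exact ⟨F, hF0, hFd, fun i => hFo _ (hA i), hFo P hP⟩)
    obtain ⟨i⟩ := ‹Nonempty ι›
    exact ⟨(h1 (S i) (hA i)).1, fun P hP => (h1 P hP).2⟩
  · obtain rfl : t = 1 := by omega
    have hNpos : 0 < Fintype.card σ := Fintype.card_pos
    obtain ⟨F, hF0, hFd, hFo⟩ := hF (1 * Fintype.card σ)
    have hFd' : F.totalDegree ≤ 1 * (1 + Fintype.card σ) := by
      by_contra hlt
      push Not at hlt
      have h1 : 1 + Fintype.card σ + 1 ≤ F.totalDegree := by omega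
      have h2 := Nat.mul_le_mul_left (Fintype.card σ) h1
      have h3 : Fintype.card σ * (1 + Fintype.card σ + 1) =
        1 * Fintype.card σ * (1 + Fintype.card σ) + Fintype.card σ := by ring
      omega
    obtain ⟨h1, h2⟩ := affine_main ht U le_rfl hF0 hFd' (fun i => hFo _ (hA i))
    exact ⟨h1, fun P hP => h2 P (hFo P hP)⟩

end

end Pool.Agent.Lib.StarQ
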