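import Mathlib
import Pool.Agent.Lib.StarQ.ProjQ
import Pool.Agent.Lib.Chud.Main

set_option autoImplicit false

/-!
# Equality for the Waldschmidt constant
-/

namespace Pool.Agent.Lib.StarQ

open MvPolynomial

/-- the bound of Demailly -/
theorem demailly_bound {k : Type} [Field k] [IsAlgClosed k] {N : ℕ} (hN : 1 ≤ N)
    {S : Finset (Projectivization k (Fin (N+1) → k))} (hS : S.Nonempty) {a : ℕ → ℕ}
    (ha : ∀ m : ℕ, 1 ≤ m → IsLeast {d : ℕ | ∃ F : MvPolynomial (Fin (N+1)) k, F ≠ 0 ∧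
        F.IsHomogeneous d ∧ ∀ p ∈ S, F ∈ (Ideal.span {G : MvPolynomial (Fin (N+1)) k |
            G.IsHomogeneous 1 ∧ MvPolynomial.eval p.rep G = 0}) ^ m} (a m))
    {m M : ℕ} (hm : 1 ≤ m) (hM : 1 ≤ M) :
    ((a m : ℝ) + (N : ℝ) - 1) / ((m : ℝ) + (N : ℝ) - 1) ≤ (a M : ℝ) / (M : ℝ) := by
  obtain ⟨F, hF0, hF, hFS⟩ := (ha M hM).1
  have hne : Nonempty S := hS.to_subtype
  have h1 := Pool.Agent.Lib.Chud.demailly hN (ι := S) (fun p => p.1.rep)
    (fun p => p.1.rep_nonzero) (fun _ => 1) (fun _ => le_rfl) m (a m)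
    (fun d G hG hG0 hGS => (ha m hm).2 ⟨G, hG0, hG, fun p hp => by
      have := hGS ⟨p, hp⟩
      rwa [mul_one] at this⟩) M ((m + N - 1) * a M) (F := F ^ (m + N - 1))
    (by have := hF.pow (m + N - 1); rwa [mul_comm] at this) (pow_ne_zero _ hF0)
    (fun p => by
      have h2 := Ideal.pow_mem_pow (hFS p.1 p.2) (m + N - 1)
      rw [← pow_mul] at h2
      rw [mul_one]
      exact h2)
  have hM0 : (0 : ℝ) < M := by exact_mod_cast hM
  have e1 : ((m + N - 1 : ℕ) : ℝ) = (m : ℝ) + N - 1 := by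
    rw [Nat.cast_sub (by omega)]
    push_cast
    ring
  have e2 : ((a m + N - 1 : ℕ) : ℝ) = (a m : ℝ) + N - 1 := by
    rw [Nat.cast_sub (by omega)]
    push_cast
    ring
  have hm0 : (0 : ℝ) < (m : ℝ) + N - 1 := by
    rw [← e1]
    exact_mod_cast (by omega : 0 < m + N - 1)
  rw [div_le_div_iff₀ hm0 hM0]
  have h3 : ((M * (a m + N - 1) : ℕ) : ℝ) ≤ (((m + N - 1) * a M : ℕ) : ℝ) := by exact_mod_cast h1
  push_cast [e1, e2] at h3
  linarith

theorem concl_of_lim {k : Type} [Field k] [IsAlgClosed k] {N : ℕ} (hN : 1 ≤ N)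
    {S : Finset (Projectivization k (Fin (N+1) → k))} {a : ℕ → ℕ}
    (ha : ∀ m : ℕ, 1 ≤ m → IsLeast {d : ℕ | ∃ F : MvPolynomial (Fin (N+1)) k, F ≠ 0 ∧
        F.IsHomogeneous d ∧ ∀ p ∈ S, F ∈ (Ideal.span {G : MvPolynomial (Fin (N+1)) k |
            G.IsHomogeneous 1 ∧ MvPolynomial.eval p.rep G = 0}) ^ m} (a m))
    (hlim : Filter.Tendsto (fun m : ℕ => (a m : ℝ) / (m : ℝ)) Filter.atTop
      (nhds (((a 1 : ℝ) + (N : ℝ) - 1) / (N : ℝ)))) : Pool.Agent.Lib.P5c592f.Concl S := by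
  have h1 : IsLeast (Pool.Agent.Lib.P5c592f.Degs S 1) (a 1) := ha 1 le_rfl
  by_cases ha1 : a 1 ≤ 1
  · exact Pool.Agent.Lib.P5c592f.concl_of_small h1 ha1
  obtain ⟨t, ht⟩ : ∃ t, a 1 = t + 1 := ⟨a 1 - 1, by omega⟩
  have hH := Pool.Agent.Lib.P5c592f.HH_of_least h1 (show t < a 1 by omega)
  have hne : S.Nonempty := by
    rw [Finset.nonempty_iff_ne_empty]
    rintro rfl
    apply ha1
    have : a 1 ≤ 0 := (ha 1 le_rfl).2 ⟨1, one_ne_zero, isHomogeneous_one _ _, by simp⟩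
    omega
  have hN0 : (0 : ℝ) < N := by exact_mod_cast hN
  have hdem : ∀ m : ℕ, 1 ≤ m → N * a m ≤ m * (t + N) + (N - 1) * t := by
    intro m hm
    have h2 : ((a m : ℝ) + (N : ℝ) - 1) / ((m : ℝ) + (N : ℝ) - 1) ≤
        ((a 1 : ℝ) + (N : ℝ) - 1) / (N : ℝ) := by
      apply ge_of_tendsto hlim
      filter_upwards [Filter.eventually_ge_atTop 1] with M hM
      exact demailly_bound hN hne ha hm hM
    have hm1 : (1 : ℝ) ≤ m := by exact_mod_cast hm
    have hm0 : (0 : ℝ) < (m : ℝ) + N - 1 := by linarith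
    rw [div_le_div_iff₀ hm0 hN0, ht] at h2
    obtain ⟨c, hc⟩ : ∃ c, N = c + 1 := ⟨N - 1, by omega⟩
    have h3 : ((N * a m : ℕ) : ℝ) ≤ ((m * (t + N) + (N - 1) * t : ℕ) : ℝ) := by
      rw [hc] at h2 ⊢
      rw [Nat.add_sub_cancel]
      push_cast at h2 ⊢
      nlinarith
    exact_mod_cast h3
  have hfin : (Pool.Agent.Lib.P5c592f.reps S).Finite := by
    have : Pool.Agent.Lib.P5c592f.reps S = (fun p : Projectivization k (Fin (N + 1) → k) =>
        p.rep) '' (S : Set _) := by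
      ext v
      constructor
      · rintro ⟨p, hp, rfl⟩
        exact ⟨p, hp, rfl⟩
      · rintro ⟨p, hp, rfl⟩
        exact ⟨p, hp, rfl⟩
    rw [this]
    exact (Finset.finite_toSet S).image _
  obtain ⟨c, hc⟩ := starQ hN hfin Pool.Agent.Lib.P5c592f.reps_ne hH (by omega) (fun m => by
    rcases Nat.eq_zero_or_pos m with rfl | hm
    · exact ⟨0, 1, isHomogeneous_one _ _, one_ne_zero, fun v _ => by
        rw [pow_zero, Ideal.one_eq_top]; trivial, by simp⟩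
    · obtain ⟨F, hF0, hF, hv⟩ := (ha m hm).1
      exact ⟨a m, F, hF, hF0, by
        rintro v ⟨p, hp, rfl⟩
        exact hv p hp, hdem m hm⟩)
  exact Pool.Agent.Lib.P5c592f.concl_of_star (by omega) c hc

end Pool.Agent.Lib.StarQ
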